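import Pool.Agent.H471R2.Ex.Low
set_option autoImplicit false

open Pool.Agent.H471R2.St

/-- An indecomposable `F₂[C₂ × C₂]`-module is a direct summand of `Cl(K)[2]` for some biquadratic
field `K` if and only if it is isomorphic to one of the 44 explicit modules of the list. -/
theorem Pool.Agent.Results.MP_282bb6_nt.Classification.result
    (M : Type) [AddCommGroup M] (ρ : V22 → M → M) (hmod : IsF2Mod ρ) (hind : Indec ρ) :
    Arises ρ ↔ Listed ρ :=
  ⟨upper hmod hind, lower⟩
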